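import Pool.Agent.ZGO.StmtsB

/-! Row MIN of squad ZGO: a simple subsystem. -/

set_option autoImplicit false

namespace Pool.Agent.ZGO.H92

open Set

/-- admissible pairs -/
structure Adm {P : Type} [Group P] (ψ : P →* P) {X : Type} [AddCommGroup X] (θ : X →+ X)
    (ρ : P →* AddMonoid.End X) (H : Subgroup P) (Z : AddSubgroup X) : Prop where
  fi : H.FiniteIndex
  ps : ∀ g ∈ H, ψ g ∈ H
  th : ∀ z ∈ Z, θ z ∈ Z
  rh : ∀ g ∈ H, ∀ z ∈ Z, ρ g z ∈ Z
  inf : (Z : Set X).Infinite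

/-- minimal pairs -/
def Mnl {P : Type} [Group P] (ψ : P →* P) {X : Type} [AddCommGroup X] (θ : X →+ X)
    (ρ : P →* AddMonoid.End X) (H : Subgroup P) (Z : AddSubgroup X) : Prop :=
  Adm ψ θ ρ H Z ∧ ∀ H' Z', Adm ψ θ ρ H' Z' → {x | x ∈ Z ∧ θ x = 0}.ncard ≤ {x | x ∈ Z' ∧ θ x = 0}.ncard

lemma fib {P : Type} [Group P] {ψ : P →* P} {X : Type} [AddCommGroup X] {θ : X →+ X}
    {ρ : P →* AddMonoid.End X} (hS : Shift ψ θ ρ) (b : X) : (θ ⁻¹' {b}).Finite := by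
  by_cases h : ∃ x0, θ x0 = b
  · obtain ⟨x0, hx0⟩ := h
    refine (hS.fin.image (fun x => x0 + x)).subset ?_
    intro x hx
    refine ⟨x - x0, ?_, by simp⟩
    simp only [Set.mem_preimage, Set.mem_singleton_iff] at hx
    show θ (x - x0) = 0
    rw [map_sub, hx, hx0, sub_self]
  · refine Set.Finite.subset (Set.finite_empty) ?_
    intro x hx
    exact h ⟨x, hx⟩

lemma mapAdm {P : Type} [Group P] {ψ : P →* P} {X : Type} [AddCommGroup X] {θ : X →+ X}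
    {ρ : P →* AddMonoid.End X} (hS : Shift ψ θ ρ) {H : Subgroup P} {Z : AddSubgroup X}
    (hA : Adm ψ θ ρ H Z) : Adm ψ θ ρ H (Z.map θ) := by
  refine ⟨hA.fi, hA.ps, ?_, ?_, ?_⟩
  · rintro z ⟨w, hw, rfl⟩
    exact ⟨θ w, hA.th w hw, rfl⟩
  · rintro g hg z ⟨w, hw, rfl⟩
    refine ⟨ρ (ψ g) w, hA.rh _ (hA.ps g hg) w hw, ?_⟩
    exact hS.eqv g w
  · intro hf
    apply hA.inf
    refine (Set.Finite.preimage' hf (fun b _ => fib hS b)).subset ?_
    intro x hx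
    exact ⟨x, hx, rfl⟩

lemma kerSub {P : Type} [Group P] {ψ : P →* P} {X : Type} [AddCommGroup X] {θ : X →+ X}
    {ρ : P →* AddMonoid.End X} (hS : Shift ψ θ ρ) {H H' : Subgroup P} {Z Y : AddSubgroup X}
    (hM : Mnl ψ θ ρ H Z) (hA : Adm ψ θ ρ H' Y) (hY : Y ≤ Z) : ∀ z ∈ Z, θ z = 0 → z ∈ Y := by
  intro z hz h0
  have hfin : {x | x ∈ Z ∧ θ x = 0}.Finite := hS.fin.subset (fun x hx => hx.2)
  have hsub : {x | x ∈ Y ∧ θ x = 0} ⊆ {x | x ∈ Z ∧ θ x = 0} := fun x hx => ⟨hY hx.1, hx.2⟩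
  have he := Set.eq_of_subset_of_ncard_le hsub (hM.2 H' Y hA) hfin
  have : z ∈ {x | x ∈ Z ∧ θ x = 0} := ⟨hz, h0⟩
  rw [← he] at this
  exact this.1

lemma mnlSub {P : Type} [Group P] {ψ : P →* P} {X : Type} [AddCommGroup X] {θ : X →+ X}
    {ρ : P →* AddMonoid.End X} (hS : Shift ψ θ ρ) {H H' : Subgroup P} {Z Y : AddSubgroup X}
    (hM : Mnl ψ θ ρ H Z) (hA : Adm ψ θ ρ H' Y) (hY : Y ≤ Z) : Mnl ψ θ ρ H' Y := by
  refine ⟨hA, fun H2 Z2 h2 => ?_⟩
  have hfin : {x | x ∈ Z ∧ θ x = 0}.Finite := hS.fin.subset (fun x hx => hx.2)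
  have hsub : {x | x ∈ Y ∧ θ x = 0} ⊆ {x | x ∈ Z ∧ θ x = 0} := fun x hx => ⟨hY hx.1, hx.2⟩
  exact (Set.ncard_le_ncard hsub hfin).trans (hM.2 H2 Z2 h2)

/-- the iterated images -/
lemma its {P : Type} [Group P] {ψ : P →* P} {X : Type} [AddCommGroup X] {θ : X →+ X}
    {ρ : P →* AddMonoid.End X} (hS : Shift ψ θ ρ) {H : Subgroup P} {Z : AddSubgroup X}
    (hA : Adm ψ θ ρ H Z) (j : ℕ) : ∃ Y : AddSubgroup X, Adm ψ θ ρ H Y ∧ Y ≤ Z ∧
      ∀ y ∈ Y, ∃ w ∈ Z, (⇑θ)^[j] w = y := by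
  induction j with
  | zero => exact ⟨Z, hA, le_rfl, fun y hy => ⟨y, hy, rfl⟩⟩
  | succ j ih =>
    obtain ⟨Y, hY, hYZ, hw⟩ := ih
    refine ⟨Y.map θ, mapAdm hS hY, ?_, ?_⟩
    · rintro z ⟨y, hy, rfl⟩
      exact hA.th y (hYZ hy)
    · rintro z ⟨y, hy, rfl⟩
      obtain ⟨w, hw1, hw2⟩ := hw y hy
      refine ⟨w, hw1, ?_⟩
      rw [Function.iterate_succ_apply', hw2]

/-- a minimal pair: `θ` is onto `Z` -/
lemma sur {P : Type} [Group P] {ψ : P →* P} {X : Type} [AddCommGroup X] {θ : X →+ X}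
    {ρ : P →* AddMonoid.End X} (hS : Shift ψ θ ρ) {H : Subgroup P} {Z : AddSubgroup X}
    (hM : Mnl ψ θ ρ H Z) : ∀ z ∈ Z, ∃ w ∈ Z, θ w = z := by
  have key : ∀ (j : ℕ) (z : X), z ∈ Z → (⇑θ)^[j] z = 0 → ∃ w ∈ Z, θ w = z := by
    intro j
    induction j with
    | zero =>
      intro z hz h0
      refine ⟨0, Z.zero_mem, ?_⟩
      rw [map_zero]
      exact h0.symm
    | succ j ih =>
      intro z hz h0
      have hit : ∀ (k : ℕ) (y : X), y ∈ Z → (⇑θ)^[k] y ∈ Z := by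
        intro k
        induction k with
        | zero => intro y hy; exact hy
        | succ k ihk =>
          intro y hy
          rw [Function.iterate_succ_apply']
          exact hM.1.th _ (ihk y hy)
      obtain ⟨Y, hY, hYZ, hw⟩ := its hS hM.1 (j + 1)
      have h1 : θ ((⇑θ)^[j] z) = 0 := by
        rw [← Function.iterate_succ_apply' (⇑θ) j z]
        exact h0
      obtain ⟨w, hw1, hw2⟩ := hw _ (kerSub hS hM hY hYZ _ (hit j z hz) h1)
      have h2 : (⇑θ)^[j] (z - θ w) = 0 := by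
        have h3 : (⇑θ)^[j] (z - θ w) = (⇑θ)^[j] z - (⇑θ)^[j] (θ w) := by
          induction j with
          | zero => rfl
          | succ k _ => exact iterate_map_sub θ _ z (θ w)
        rw [h3, ← Function.iterate_succ_apply, hw2, sub_self]
      obtain ⟨v, hv1, hv2⟩ := ih (z - θ w) (Z.sub_mem hz (hM.1.th w hw1)) h2
      refine ⟨v + w, Z.add_mem hv1 hw1, ?_⟩
      rw [map_add, hv2]
      abel
  intro z hz
  obtain ⟨n, hn⟩ := hS.nil z
  exact key n z hz hn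

/-- a minimal pair: smaller admissible pairs have the same module -/
lemma smp {P : Type} [Group P] {ψ : P →* P} {X : Type} [AddCommGroup X] {θ : X →+ X}
    {ρ : P →* AddMonoid.End X} (hS : Shift ψ θ ρ) {H H' : Subgroup P} {Z Y : AddSubgroup X}
    (hM : Mnl ψ θ ρ H Z) (hA : Adm ψ θ ρ H' Y) (hY : Y ≤ Z) : Z ≤ Y := by
  have hMY := mnlSub hS hM hA hY
  have key : ∀ (j : ℕ) (z : X), z ∈ Z → (⇑θ)^[j] z = 0 → z ∈ Y := by
    intro j
    induction j with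
    | zero =>
      intro z hz h0
      have : z = 0 := h0
      rw [this]
      exact Y.zero_mem
    | succ j ih =>
      intro z hz h0
      have h1 : θ z ∈ Y := ih (θ z) (hM.1.th z hz) (by
        rw [← Function.iterate_succ_apply (⇑θ) j z]
        exact h0)
      obtain ⟨y, hy1, hy2⟩ := sur hS hMY (θ z) h1
      have h2 : z - y ∈ Y := kerSub hS hM hA hY (z - y) (Z.sub_mem hz (hY hy1)) (by
        rw [map_sub, hy2, sub_self])
      have : z = (z - y) + y := by abel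
      rw [this]
      exact Y.add_mem h2 hy1
  intro z hz
  obtain ⟨n, hn⟩ := hS.nil z
  exact key n z hz hn

theorem min (hCUT : CutStmt) : MinStmt := by
  intro P _ ψ X _ θ ρ hS
  have hAt : Adm ψ θ ρ ⊤ ⊤ := by
    refine ⟨inferInstance, fun _ _ => trivial, fun _ _ => trivial, fun _ _ _ _ => trivial, ?_⟩
    have := hS.inf
    rw [AddSubgroup.coe_top]
    exact Set.infinite_univ
  -- a minimal pair
  obtain ⟨H, Z, hM⟩ : ∃ H Z, Mnl ψ θ ρ H Z := by
    classical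
    have hex : ∃ n, ∃ (H : Subgroup P) (Z : AddSubgroup X), Adm ψ θ ρ H Z ∧
        {x | x ∈ Z ∧ θ x = 0}.ncard = n := ⟨_, ⊤, ⊤, hAt, rfl⟩
    obtain ⟨H, Z, hA, hn⟩ := Nat.find_spec hex
    refine ⟨H, Z, hA, fun H' Z' h' => ?_⟩
    rw [hn]
    exact Nat.find_min' hex ⟨H', Z', h', rfl⟩
  obtain ⟨ψ', θ', ρ', h1, h2, h3, hS'⟩ := hCUT P ψ X θ ρ hS H Z hM.1.ps hM.1.th hM.1.rh hM.1.inf
  refine ⟨H, Z, ψ', θ', ρ', hM.1.fi, h1, h2, h3, ⟨hS', ?_, ?_⟩⟩
  · intro z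
    obtain ⟨w, hw1, hw2⟩ := sur hS hM z z.2
    refine ⟨⟨w, hw1⟩, ?_⟩
    apply Subtype.ext
    rw [h2]
    exact hw2
  · intro H2 hH2 hps Y hth hrh
    by_cases hfin : (Y : Set Z).Finite
    · exact Or.inr hfin
    · left
      have hA : Adm ψ θ ρ (H2.map H.subtype) (Y.map Z.subtype) := by
        refine ⟨?_, ?_, ?_, ?_, ?_⟩
        · refine ⟨?_⟩
          rw [Subgroup.index_map_subtype]
          exact mul_ne_zero hH2.index_ne_zero hM.1.fi.index_ne_zero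
        · rintro g ⟨k, hk, rfl⟩
          refine ⟨ψ' k, hps k hk, ?_⟩
          exact h1 k
        · rintro z ⟨y, hy, rfl⟩
          exact ⟨θ' y, hth y hy, h2 y⟩
        · rintro g ⟨k, hk, rfl⟩ z ⟨y, hy, rfl⟩
          exact ⟨ρ' k y, hrh k hk y hy, h3 k y⟩
        · intro hf
          apply hfin
          have : ((fun z : Z => (z : X)) '' (Y : Set Z)).Finite := hf
          exact Set.Finite.of_finite_image this (Subtype.val_injective.injOn)
      have hle : Y.map Z.subtype ≤ Z := by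
        rintro z ⟨y, _, rfl⟩
        exact y.2
      have := smp hS hM hA hle
      rw [eq_top_iff]
      intro z _
      obtain ⟨y, hy1, hy2⟩ := this z.2
      have : y = z := Subtype.ext hy2
      rw [← this]
      exact hy1

end Pool.Agent.ZGO.H92
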